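import Mathlib
import Pool.Agent.TH118.CU.Bi2

/-!
# Spectral decomposition for an element of finite order
-/

set_option linter.unusedSectionVars false

namespace Pool.Agent.TH118.IS

open Module Pool.Agent.H204R3.SP Pool.Agent.H204R3.GP Pool.Agent.W522.U Pool.Agent.TH118.CR
open Pool.Agent.TH118.CU

/-- The eigenvectors of `γ` in `U` for the eigenvalue `α`. -/
def eig {K : Type} [Field K] {X : Type} [AddCommGroup X] [Module K X] {Γ : Type} [Group Γ]
    (R : Representation K Γ X) (γ : Γ) (U : Submodule K X) (α : K) : Submodule K X :=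
  U ⊓ Module.End.eigenspace (R γ) α

variable {K : Type} [Field K] [CharZero K] {X : Type} [AddCommGroup X] [Module K X]
  [FiniteDimensional K X] {Γ : Type} [Group Γ] {R : Representation K Γ X} {χ : Γ →* K}

theorem mem_eig {γ : Γ} {U : Submodule K X} {α : K} {u : X} :
    u ∈ eig R γ U α ↔ u ∈ U ∧ R γ u = α • u := by
  rw [eig, Submodule.mem_inf, Module.End.mem_eigenspace_iff]

theorem pow_eig {γ : Γ} {U : Submodule K X} {α : K} {u : X} (hu : u ∈ eig R γ U α) (t : ℕ) :
    R (γ ^ t) u = α ^ t • u := by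
  induction t with
  | zero => simp
  | succ t ih => rw [pow_succ, map_mul, Module.End.mul_apply, (mem_eig.1 hu).2, map_smul, ih,
      smul_smul, pow_succ, mul_comm]

theorem eig_ne {γ : Γ} {U : Submodule K X} {α : K} (h : eig R γ U α ≠ ⊥) : α ≠ 0 := by
  obtain ⟨u, hu, hu0⟩ := Submodule.exists_mem_ne_zero_of_ne_bot h
  rintro rfl
  have h1 := (mem_eig.1 hu).2
  rw [zero_smul] at h1
  exact Rne γ hu0 h1

theorem eig_inv {γ : Γ} {U : Submodule K X} {α : K} (hα : α ≠ 0) {u : X} (hu : u ∈ eig R γ U α)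
    (t : ℕ) : R (γ ^ t)⁻¹ u = (α⁻¹) ^ t • u := by
  have h1 := pow_eig hu t
  have h2 := Rinv (R := R) (γ ^ t) u
  rw [h1, map_smul] at h2
  rw [← h2, smul_smul, inv_pow, inv_mul_cancel₀ (pow_ne_zero _ hα), one_smul, h2]

theorem eig_root {γ : Γ} {U : Submodule K X} {α : K} {k : ℕ} (hγ : R γ ^ k = 1)
    (h : eig R γ U α ≠ ⊥) : α ^ k = 1 := by
  obtain ⟨u, hu, hu0⟩ := Submodule.exists_mem_ne_zero_of_ne_bot h
  have h1 := pow_eig hu k
  rw [map_pow, hγ, Module.End.one_apply] at h1
  have h2 : (α ^ k - 1) • u = 0 := by rw [sub_smul, ← h1, one_smul, sub_self]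
  exact sub_eq_zero.1 ((smul_eq_zero.1 h2).resolve_right hu0)

/-- The sum that gives `k` times the component for the eigenvalue `β`. -/
noncomputable def prj (R : Representation K Γ X) (γ : Γ) (k : ℕ) (β : K) (v : X) : X :=
  ∑ t ∈ Finset.range k, (β⁻¹) ^ t • R (γ ^ t) v

open scoped Classical in
theorem prj_eig {γ : Γ} {U : Submodule K X} {α β : K} {k : ℕ} (hα : α ^ k = 1) (hβ : β ^ k = 1)
    (hβ0 : β ≠ 0) {u : X} (hu : u ∈ eig R γ U α) :
    prj R γ k β u = (if α = β then (k : K) else 0) • u := by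
  have h1 : ∀ t, (β⁻¹) ^ t • R (γ ^ t) u = ((α * β⁻¹) ^ t) • u := by
    intro t
    rw [pow_eig hu, smul_smul, mul_pow, mul_comm]
  rw [prj, Finset.sum_congr rfl fun t _ => h1 t, ← Finset.sum_smul,
    geom_root (by rw [mul_pow, hα, inv_pow, hβ, inv_one, mul_one])]
  congr 1
  by_cases h : α = β
  · rw [if_pos h, if_pos (by rw [h, mul_inv_cancel₀ hβ0])]
  · rw [if_neg h, if_neg (fun h2 => h ((mul_inv_eq_one₀ hβ0).1 h2))]

theorem prj_add (γ : Γ) (k : ℕ) (β : K) (u v : X) :
    prj R γ k β (u + v) = prj R γ k β u + prj R γ k β v := by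
  simp only [prj, map_add, smul_add, Finset.sum_add_distrib]

theorem prj_sum (γ : Γ) (k : ℕ) (β : K) {ι : Type} (s : Finset ι) (f : ι → X) :
    prj R γ k β (∑ i ∈ s, f i) = ∑ i ∈ s, prj R γ k β (f i) := by
  classical
  induction s using Finset.induction_on with
  | empty => simp [prj]
  | insert i s hi ih => rw [Finset.sum_insert hi, Finset.sum_insert hi, prj_add, ih]

/-- The average on an eigenvector. -/
theorem avg_eig {γ : Γ} {U : Submodule K X} {α β : K} {k : ℕ} (hα : α ≠ 0) {u : X}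
    (hu : u ∈ eig R γ U α) (Y : End K X) : avg R γ k (β * α⁻¹) Y u = prj R γ k β (Y u) := by
  rw [avg, LinearMap.sum_apply, prj]
  refine Finset.sum_congr rfl fun t _ => ?_
  rw [LinearMap.smul_apply, Module.End.mul_apply, Module.End.mul_apply, eig_inv hα hu, map_smul,
    map_smul, smul_smul]
  congr 1
  rw [← mul_pow, mul_inv, inv_inv, mul_assoc, mul_inv_cancel₀ hα, mul_one]

/-- Every vector is a sum of eigenvectors. -/
theorem exists_comp [IsAlgClosed K] {γ : Γ} {U : Submodule K X} {k : ℕ} (hk : 0 < k)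
    (hγ : R γ ^ k = 1) (hU : ∀ u ∈ U, R γ u ∈ U) {v : X} (hv : v ∈ U) :
    ∃ f : K →₀ X, (∀ α, f α ∈ eig R γ U α) ∧ (f.sum fun _ x => x) = v := by
  classical
  let f : End K U := (R γ).restrict hU
  have hfk : f ^ k = 1 := by
    refine LinearMap.ext fun u => ?_
    apply Subtype.ext
    have h1 : ∀ t : ℕ, ∀ u : U, (((f ^ t) u : U) : X) = (R γ ^ t) (u : X) := by
      intro t
      induction t with
      | zero => intro u; simp
      | succ t ih =>
        intro u
        rw [pow_succ, Module.End.mul_apply, ih, pow_succ, Module.End.mul_apply]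
        rfl
    rw [h1, hγ]
    rfl
  have hss : f.IsSemisimple := by
    refine Module.End.isSemisimple_of_squarefree_aeval_eq_zero
      (p := (Polynomial.X ^ k - 1 : Polynomial K)) ?_ ?_
    · exact ((Polynomial.X_pow_sub_one_separable_iff).2 (Nat.cast_ne_zero.2 hk.ne')).squarefree
    · simp [hfk]
  have htop : ⨆ α, Module.End.eigenspace f α = ⊤ := by
    rw [← Module.End.iSup_maxGenEigenspace_eq_top f]
    congr 1
    funext α
    exact (hss.isFinitelySemisimple.maxGenEigenspace_eq_eigenspace α).symm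
  have h1 : (⟨v, hv⟩ : U) ∈ ⨆ α, Module.End.eigenspace f α := by
    rw [htop]
    exact Submodule.mem_top
  obtain ⟨g, hg, hgs⟩ := (Submodule.mem_iSup_iff_exists_finsupp _ _).1 h1
  refine ⟨g.mapRange (fun x : U => (x : X)) rfl, fun α => ?_, ?_⟩
  · rw [Finsupp.mapRange_apply, mem_eig]
    refine ⟨(g α).2, ?_⟩
    have h2 := Module.End.mem_eigenspace_iff.1 (hg α)
    exact congrArg Subtype.val h2
  · rw [Finsupp.sum_mapRange_index (fun _ => rfl)]
    have h2 : ((g.sum fun _ x => x : U) : X) = v := congrArg Subtype.val hgs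
    refine Eq.trans ?_ h2
    simp only [Finsupp.sum]
    exact (AddSubmonoidClass.coe_finsetSum _ _).symm

/-- The component for the eigenvalue `β`. -/
theorem prj_comp [IsAlgClosed K] {γ : Γ} {U : Submodule K X} {k : ℕ} (hγ : R γ ^ k = 1)
    {v : X} {f : K →₀ X} (hf : ∀ α, f α ∈ eig R γ U α) (hfs : (f.sum fun _ x => x) = v) {β : K}
    (hβ : β ^ k = 1) (hβ0 : β ≠ 0) : prj R γ k β v = (k : K) • f β := by
  classical
  have h1 : ∀ α ∈ f.support, prj R γ k β (f α) = if α = β then (k : K) • f β else 0 := by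
    intro α hα
    have h2 : eig R γ U α ≠ ⊥ := by
      intro h
      have h3 := hf α
      rw [h, Submodule.mem_bot] at h3
      exact (Finsupp.mem_support_iff.1 hα) h3
    rw [prj_eig (eig_root hγ h2) hβ hβ0 (hf α)]
    by_cases h : α = β
    · rw [if_pos h, if_pos h, h]
    · rw [if_neg h, if_neg h, zero_smul]
  rw [← hfs, Finsupp.sum, prj_sum, Finset.sum_congr rfl h1, Finset.sum_ite_eq']
  by_cases h : β ∈ f.support
  · rw [if_pos h]
  · rw [if_neg h, Finsupp.notMem_support_iff.1 h, smul_zero]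

end Pool.Agent.TH118.IS
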