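import Mathlib
import Pool.Agent.TH118.IS.Spec

/-!
# A space of operators that is normalized by an element with isolated eigenvalue ratios
-/

set_option linter.unusedSectionVars false

namespace Pool.Agent.TH118.IS

open Module Pool.Agent.H204R3.SP Pool.Agent.H204R3.GP Pool.Agent.W522.U Pool.Agent.TH118.CR
open Pool.Agent.TH118.CU

variable {K : Type} [Field K] [CharZero K] {X : Type} [AddCommGroup X] [Module K X]
  [FiniteDimensional K X] {Γ : Type} [Group Γ] {R : Representation K Γ X} {χ : Γ →* K}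

/-- The sum of the eigenspaces for the eigenvalues in `A`. -/
def part (R : Representation K Γ X) (γ : Γ) (U : Submodule K X) (A : Set K) : Submodule K X :=
  ⨆ α : A, eig R γ U α

theorem part_le {γ : Γ} {U : Submodule K X} {A : Set K} : part R γ U A ≤ U :=
  iSup_le fun _ => inf_le_left

theorem eig_le_part {γ : Γ} {U : Submodule K X} {A : Set K} {α : K} (hα : α ∈ A) :
    eig R γ U α ≤ part R γ U A :=
  le_iSup (fun α : A => eig R γ U α) ⟨α, hα⟩

theorem mem_part [IsAlgClosed K] {γ : Γ} {U : Submodule K X} {A : Set K} {k : ℕ} (hk : 0 < k)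
    (hγ : R γ ^ k = 1) (hU : ∀ u ∈ U, R γ u ∈ U) {v : X} (hv : v ∈ U)
    (h : ∀ β, β ∉ A → eig R γ U β ≠ ⊥ → prj R γ k β v = 0) : v ∈ part R γ U A := by
  classical
  obtain ⟨f, hf, hfs⟩ := exists_comp hk hγ hU hv
  rw [← hfs]
  refine Submodule.sum_mem _ fun α hα => ?_
  by_cases hαA : α ∈ A
  · exact eig_le_part hαA (hf α)
  · have h1 : eig R γ U α ≠ ⊥ := by
      intro h2
      have h3 := hf α
      rw [h2, Submodule.mem_bot] at h3
      exact (Finsupp.mem_support_iff.1 hα) h3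
    have h2 := h α hαA h1
    rw [prj_comp hγ hf hfs (eig_root hγ h1) (eig_ne h1)] at h2
    have hkK : (k : K) ≠ 0 := Nat.cast_ne_zero.2 hk.ne'
    rw [(smul_eq_zero.1 h2).resolve_left hkK]
    exact Submodule.zero_mem _

theorem sup_part [IsAlgClosed K] {γ : Γ} {U : Submodule K X} {A : Set K} {k : ℕ} (hk : 0 < k)
    (hγ : R γ ^ k = 1) (hU : ∀ u ∈ U, R γ u ∈ U) {v : X} (hv : v ∈ U) :
    v ∈ part R γ U A ⊔ part R γ U Aᶜ := by
  classical
  obtain ⟨f, hf, hfs⟩ := exists_comp hk hγ hU hv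
  rw [← hfs]
  refine Submodule.sum_mem _ fun α _ => ?_
  by_cases hαA : α ∈ A
  · exact Submodule.mem_sup_left (eig_le_part hαA (hf α))
  · exact Submodule.mem_sup_right (eig_le_part hαA (hf α))

/-- An operator without components between the two parts preserves the parts. -/
theorem pres [IsAlgClosed K] {γ : Γ} {U : Submodule K X} {A : Set K} {k : ℕ} (hk : 0 < k)
    (hγ : R γ ^ k = 1) (hU : ∀ u ∈ U, R γ u ∈ U) {T : End K X} (hT : ∀ u ∈ U, T u ∈ U)
    (h : ∀ α ∈ A, ∀ β, β ∉ A → eig R γ U α ≠ ⊥ → eig R γ U β ≠ ⊥ →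
      ∀ u ∈ U, avg R γ k (β * α⁻¹) T u = 0) : ∀ u ∈ part R γ U A, T u ∈ part R γ U A := by
  intro u hu
  rw [part] at hu
  induction hu using Submodule.iSup_induction' with
  | mem α u hu =>
    by_cases h0 : eig R γ U (α : K) = ⊥
    · rw [h0, Submodule.mem_bot] at hu
      rw [hu, map_zero]
      exact Submodule.zero_mem _
    · refine mem_part hk hγ hU (hT u (mem_eig.1 hu).1) fun β hβ hβ0 => ?_
      rw [← avg_eig (eig_ne h0) hu]
      exact h α α.2 β hβ h0 hβ0 u (mem_eig.1 hu).1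
  | zero =>
    rw [map_zero]
    exact Submodule.zero_mem _
  | add u v _ _ h1 h2 =>
    rw [map_add]
    exact Submodule.add_mem _ h1 h2

/-- The projector to the part of the eigenvalues in `A`. -/
theorem exists_projector [IsAlgClosed K] {γ : Γ} {U : Submodule K X} (A : Set K) {k : ℕ}
    (hk : 0 < k) (hγ : R γ ^ k = 1) (hU : ∀ u ∈ U, R γ u ∈ U) :
    ∃ p : End K X, (∀ u ∈ U, p u ∈ U) ∧ (∀ u ∈ part R γ U A, p u = u) ∧
      ∀ u ∈ part R γ U Aᶜ, p u = 0 := by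
  classical
  let Z : Finset K := (Polynomial.nthRootsFinset k (1 : K)).filter (fun α => α ∈ A)
  have hZ : ∀ α, α ∈ Z ↔ α ^ k = 1 ∧ α ∈ A := by
    intro α
    rw [Finset.mem_filter, Polynomial.mem_nthRootsFinset hk]
  let p : End K X := (k : K)⁻¹ • ∑ α ∈ Z, ∑ t ∈ Finset.range k, (α⁻¹) ^ t • R (γ ^ t)
  have hp : ∀ v, p v = (k : K)⁻¹ • ∑ α ∈ Z, prj R γ k α v := by
    intro v
    simp only [p, LinearMap.smul_apply, LinearMap.sum_apply, prj]
  have hkK : (k : K) ≠ 0 := Nat.cast_ne_zero.2 hk.ne'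
  have hU' : ∀ t : ℕ, ∀ u ∈ U, R (γ ^ t) u ∈ U := by
    intro t
    induction t with
    | zero => intro u hu; simpa using hu
    | succ t ih =>
      intro u hu
      rw [pow_succ, map_mul, Module.End.mul_apply]
      exact ih _ (hU u hu)
  have heig : ∀ α u, eig R γ U α ≠ ⊥ → u ∈ eig R γ U α → p u = if α ∈ A then u else 0 := by
    intro α u hα hu
    have h1 : ∀ β ∈ Z, prj R γ k β u = if α = β then (k : K) • u else 0 := by
      intro β hβ
      have hβ1 := (hZ β).1 hβ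
      have hβ0 : β ≠ 0 := by
        rintro rfl
        rw [zero_pow hk.ne'] at hβ1
        exact zero_ne_one hβ1.1
      rw [prj_eig (eig_root hγ hα) hβ1.1 hβ0 hu]
      split_ifs
      · rfl
      · rw [zero_smul]
    rw [hp, Finset.sum_congr rfl h1, Finset.sum_ite_eq]
    by_cases h : α ∈ A
    · rw [if_pos h, if_pos ((hZ α).2 ⟨eig_root hγ hα, h⟩), smul_smul, inv_mul_cancel₀ hkK, one_smul]
    · rw [if_neg h, if_neg (fun h2 => h ((hZ α).1 h2).2), smul_zero]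
  have hpart : ∀ (B : Set K) (q : End K X), (∀ α ∈ B, ∀ u ∈ eig R γ U α, q u = 0) →
      ∀ u ∈ part R γ U B, q u = 0 := by
    intro B q hq u hu
    rw [part] at hu
    induction hu using Submodule.iSup_induction' with
    | mem α u hu => exact hq α α.2 u hu
    | zero => rw [map_zero]
    | add u v _ _ h1 h2 => rw [map_add, h1, h2, add_zero]
  refine ⟨p, fun u hu => ?_, fun u hu => ?_, fun u hu => ?_⟩
  · rw [hp]
    refine U.smul_mem _ (U.sum_mem fun α _ => ?_)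
    rw [prj]
    exact U.sum_mem fun t _ => U.smul_mem _ (hU' t u hu)
  · have h1 := hpart A (p - 1) (fun α hα u hu => by
      rw [LinearMap.sub_apply, Module.End.one_apply, sub_eq_zero]
      by_cases h0 : eig R γ U α = ⊥
      · rw [h0, Submodule.mem_bot] at hu
        rw [hu, map_zero]
      · rw [heig α u h0 hu, if_pos hα]) u hu
    rwa [LinearMap.sub_apply, Module.End.one_apply, sub_eq_zero] at h1
  · refine hpart Aᶜ p (fun α hα u hu => ?_) u hu
    by_cases h0 : eig R γ U α = ⊥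
    · rw [h0, Submodule.mem_bot] at hu
      rw [hu, map_zero]
    · rw [heig α u h0 hu, if_neg hα]

/-- A commuting family has a common eigenvector. -/
theorem common_eig [IsAlgClosed K] (S : Set (End K X)) : ∀ (n : ℕ) (U : Submodule K X),
    finrank K U = n → U ≠ ⊥ → (∀ T ∈ S, ∀ u ∈ U, T u ∈ U) →
    (∀ T ∈ S, ∀ T' ∈ S, ∀ u ∈ U, T (T' u) = T' (T u)) →
    ∃ v ∈ U, v ≠ 0 ∧ ∀ T ∈ S, ∃ a : K, T v = a • v := by
  intro n
  induction n using Nat.strong_induction_on with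
  | _ n ih =>
  intro U hn hU hst hcomm
  by_cases hall : ∀ T ∈ S, ∃ a : K, ∀ u ∈ U, T u = a • u
  · obtain ⟨v, hv, hv0⟩ := Submodule.exists_mem_ne_zero_of_ne_bot hU
    refine ⟨v, hv, hv0, fun T hT => ?_⟩
    obtain ⟨a, ha⟩ := hall T hT
    exact ⟨a, ha v hv⟩
  push Not at hall
  obtain ⟨T, hT, hTn⟩ := hall
  have hnt : Nontrivial U := by
    obtain ⟨u, hu, hu0⟩ := Submodule.exists_mem_ne_zero_of_ne_bot hU
    exact ⟨⟨u, hu⟩, 0, fun h => hu0 (congrArg Subtype.val h)⟩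
  obtain ⟨a, ha⟩ := Module.End.exists_eigenvalue (T.restrict (hst T hT))
  obtain ⟨⟨u0, hu0⟩, hue⟩ := ha.exists_hasEigenvector
  have hu00 : u0 ≠ 0 := fun h => hue.2 (Subtype.ext h)
  have hua : T u0 = a • u0 := congrArg Subtype.val hue.apply_eq_smul
  let W : Submodule K X := U ⊓ Module.End.eigenspace T a
  have hW : ∀ w, w ∈ W ↔ w ∈ U ∧ T w = a • w := by
    intro w
    rw [Submodule.mem_inf, Module.End.mem_eigenspace_iff]
  have hWU : W < U := by
    refine lt_of_le_of_ne inf_le_left fun h => ?_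
    obtain ⟨u, hu, hun⟩ := hTn a
    rw [← h] at hu
    exact hun ((hW u).1 hu).2
  obtain ⟨v, hv, hv0, hv1⟩ := ih (finrank K W) (by rw [← hn]; exact Submodule.finrank_lt_finrank_of_lt hWU)
    W rfl (fun h => hu00 (by
      have h1 : u0 ∈ W := (hW u0).2 ⟨hu0, hua⟩
      rwa [h, Submodule.mem_bot] at h1))
    (fun T' hT' w hw => (hW _).2 ⟨hst T' hT' w ((hW w).1 hw).1, by
      rw [hcomm T hT T' hT' w ((hW w).1 hw).1, ((hW w).1 hw).2, map_smul]⟩)
    (fun T' hT' T'' hT'' w hw => hcomm T' hT' T'' hT'' w ((hW w).1 hw).1)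
  exact ⟨v, ((hW v).1 hv).1, hv0, hv1⟩

/-- The main lemma. -/
theorem split [IsAlgClosed K] {U : Submodule K X} (hU : SI R U) (hst : ∀ g, ∀ u ∈ U, R g u ∈ U)
    (L : Submodule K (End K X)) (hconj : ∀ g : Γ, ∀ Y ∈ L, R g * Y * R g⁻¹ ∈ L)
    (hLU : ∀ Y ∈ L, ∀ u ∈ U, Y u ∈ U) (hns : ∃ Y ∈ L, ¬∃ a : K, ∀ u ∈ U, Y u = a • u)
    {γ : Γ} {k : ℕ} (hk : 0 < k) (hγ : R γ ^ k = 1) (A : Set K)
    (hA : ∃ α ∈ A, eig R γ U α ≠ ⊥) (hB : ∃ β ∉ A, eig R γ U β ≠ ⊥)
    (hline : ∀ α ∈ A, ∀ β ∉ A, eig R γ U α ≠ ⊥ → eig R γ U β ≠ ⊥ → ∀ T : End K X,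
      (∀ u ∈ U, T u ∈ U) → ∀ P : Submodule K X, (P = part R γ U A ∨ P = part R γ U Aᶜ) →
      finrank K (P.map (avg R γ k (β * α⁻¹) T)) ≤ 1 ∧
      finrank K (P.map (avg R γ k (α * β⁻¹) T)) ≤ 1) :
    ∃ α ∈ A, ∃ β ∉ A, eig R γ U α ≠ ⊥ ∧ eig R γ U β ≠ ⊥ ∧ ∃ Y ∈ L,
      (∃ u ∈ U, avg R γ k (β * α⁻¹) Y u ≠ 0) ∨ (∃ u ∈ U, avg R γ k (α * β⁻¹) Y u ≠ 0) := by
  classical
  by_contra hcon
  push Not at hcon
  have hconj' : ∀ g : Γ, ∀ Y ∈ L, R g⁻¹ * Y * R g ∈ L := by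
    intro g Y hY
    have h1 := hconj g⁻¹ Y hY
    rwa [inv_inv] at h1
  have hγU := hst γ
  -- operators without cross components
  have hpres : ∀ T : End K X, (∀ u ∈ U, T u ∈ U) →
      (∀ α ∈ A, ∀ β ∉ A, eig R γ U α ≠ ⊥ → eig R γ U β ≠ ⊥ →
        (∀ u ∈ U, avg R γ k (β * α⁻¹) T u = 0) ∧ (∀ u ∈ U, avg R γ k (α * β⁻¹) T u = 0)) →
      (∀ u ∈ part R γ U A, T u ∈ part R γ U A) ∧ (∀ u ∈ part R γ U Aᶜ, T u ∈ part R γ U Aᶜ) := by
    intro T hT h
    refine ⟨pres hk hγ hγU hT fun α hα β hβ h1 h2 => (h α hα β hβ h1 h2).1,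
      pres hk hγ hγU hT fun α hα β hβ h1 h2 => ?_⟩
    exact (h β (not_not.1 hβ) α hα h2 h1).2
  have hLp : ∀ Y ∈ L, (∀ u ∈ part R γ U A, Y u ∈ part R γ U A) ∧
      (∀ u ∈ part R γ U Aᶜ, Y u ∈ part R γ U Aᶜ) := fun Y hY =>
    hpres Y (hLU Y hY) fun α hα β hβ h1 h2 => hcon α hα β hβ h1 h2 Y hY
  -- a stable line is impossible
  have hnoline : ∀ P : Submodule K X, P ≤ U → finrank K P ≤ 1 → (∀ Y ∈ L, ∀ u ∈ P, Y u ∈ P) →
      P = ⊥ := by
    intro P hPU hP1 hPL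
    by_contra hP0
    obtain ⟨d, hd, hd0⟩ := Submodule.exists_mem_ne_zero_of_ne_bot hP0
    obtain ⟨Y, hY, hYn⟩ := hns
    refine hYn (scalar_of_vector hU L hconj (hPU hd) hd0 (fun Y hY => ?_) Y hY)
    have h1 : P = Submodule.span K {d} := by
      symm
      apply Submodule.eq_of_le_of_finrank_le
      · rwa [Submodule.span_singleton_le_iff_mem]
      · rw [finrank_span_singleton hd0]
        exact hP1
    have h2 := hPL Y hY d hd
    rw [h1, Submodule.mem_span_singleton] at h2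
    obtain ⟨a, ha⟩ := h2
    exact ⟨a, ha.symm⟩
  -- the operators that commute with `L`
  have hC : ∀ T : End K X, (∀ u ∈ U, T u ∈ U) → (∀ Y ∈ L, ∀ u ∈ U, T (Y u) = Y (T u)) →
      (∀ u ∈ part R γ U A, T u ∈ part R γ U A) ∧ (∀ u ∈ part R γ U Aᶜ, T u ∈ part R γ U Aᶜ) := by
    intro T hT hTL
    have hav : ∀ μ : K, (∀ u ∈ U, avg R γ k μ T u ∈ U) ∧
        ∀ Y ∈ L, ∀ u ∈ U, avg R γ k μ T (Y u) = Y (avg R γ k μ T u) := by
      intro μ
      refine ⟨avg_stable hγU (hst γ⁻¹) hT, fun Y hY u hu => ?_⟩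
      rw [avg, LinearMap.sum_apply, LinearMap.sum_apply, map_sum]
      refine Finset.sum_congr rfl fun t _ => ?_
      simp only [LinearMap.smul_apply, Module.End.mul_apply, map_smul]
      congr 1
      have h1 : R (γ ^ t)⁻¹ (Y u) = (R (γ ^ t)⁻¹ * Y * R (γ ^ t)) (R (γ ^ t)⁻¹ u) := by
        rw [Module.End.mul_apply, Module.End.mul_apply, Rinv']
      rw [h1, hTL _ (hconj' (γ ^ t) Y hY) _ (hst _ u hu), Module.End.mul_apply,
        Module.End.mul_apply, Rinv']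
    refine hpres T hT fun α hα β hβ h1 h2 => ?_
    have key : ∀ μ : K, (∀ P : Submodule K X, (P = part R γ U A ∨ P = part R γ U Aᶜ) →
        finrank K (P.map (avg R γ k μ T)) ≤ 1) → ∀ u ∈ U, avg R γ k μ T u = 0 := by
      intro μ hμ
      have hz : ∀ P : Submodule K X, (P = part R γ U A ∨ P = part R γ U Aᶜ) →
          ∀ u ∈ P, avg R γ k μ T u = 0 := by
        intro P hP u hu
        have hPU : P ≤ U := by
          rcases hP with rfl | rfl <;> exact part_le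
        have h3 := hnoline (P.map (avg R γ k μ T)) (by
          rintro _ ⟨w, hw, rfl⟩
          exact (hav μ).1 w (hPU hw)) (hμ P hP) (by
          rintro Y hY _ ⟨w, hw, rfl⟩
          refine ⟨Y w, ?_, (hav μ).2 Y hY w (hPU hw)⟩
          rcases hP with rfl | rfl
          · exact (hLp Y hY).1 w hw
          · exact (hLp Y hY).2 w hw)
        have h4 : avg R γ k μ T u ∈ P.map (avg R γ k μ T) := Submodule.mem_map_of_mem hu
        rwa [h3, Submodule.mem_bot] at h4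
      intro u hu
      obtain ⟨a, ha, b, hb, rfl⟩ := Submodule.mem_sup.1 (sup_part (A := A) hk hγ hγU hu)
      rw [map_add, hz _ (Or.inl rfl) a ha, hz _ (Or.inr rfl) b hb, add_zero]
    exact ⟨key _ fun P hP => (hline α hα β hβ h1 h2 T hT P hP).1,
      key _ fun P hP => (hline α hα β hβ h1 h2 T hT P hP).2⟩
  obtain ⟨p, hpU, hpA, hpB⟩ := exists_projector (U := U) A hk hγ hγU
  -- the projector commutes with an operator which preserves the parts
  have hcm : ∀ T : End K X, (∀ u ∈ part R γ U A, T u ∈ part R γ U A) →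
      (∀ u ∈ part R γ U Aᶜ, T u ∈ part R γ U Aᶜ) → ∀ u ∈ U, p (T u) = T (p u) := by
    intro T h1 h2 u hu
    obtain ⟨a, ha, b, hb, rfl⟩ := Submodule.mem_sup.1 (sup_part (A := A) hk hγ hγU hu)
    rw [map_add, map_add, map_add, hpA _ (h1 a ha), hpB _ (h2 b hb), hpA a ha, hpB b hb, add_zero,
      add_zero]
  let Tg : Γ → End K X := fun g => R g * p * R g⁻¹
  have hTgU : ∀ g, ∀ u ∈ U, Tg g u ∈ U := fun g u hu => hst g _ (hpU _ (hst g⁻¹ u hu))
  have hTgL : ∀ g, ∀ Y ∈ L, ∀ u ∈ U, Tg g (Y u) = Y (Tg g u) := by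
    intro g Y hY u hu
    have h1 := hcm _ (hLp _ (hconj' g Y hY)).1 (hLp _ (hconj' g Y hY)).2 _ (hst g⁻¹ u hu)
    have h2 : R g⁻¹ (Y u) = (R g⁻¹ * Y * R g) (R g⁻¹ u) := by
      rw [Module.End.mul_apply, Module.End.mul_apply, Rinv']
    change R g (p (R g⁻¹ (Y u))) = Y (R g (p (R g⁻¹ u)))
    rw [h2, h1, Module.End.mul_apply, Module.End.mul_apply, Rinv']
  have hTgp : ∀ g, ∀ u ∈ U, p (Tg g u) = Tg g (p u) := fun g =>
    hcm _ (hC _ (hTgU g) (hTgL g)).1 (hC _ (hTgU g) (hTgL g)).2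
  have hTT : ∀ g h, ∀ u ∈ U, Tg g (Tg h u) = Tg h (Tg g u) := by
    intro g h u hu
    have h1 := hTgp (g⁻¹ * h) (R g⁻¹ u) (hst g⁻¹ u hu)
    have h2 : ∀ w, Tg h w = R g (Tg (g⁻¹ * h) (R g⁻¹ w)) := by
      intro w
      change R h (p (R h⁻¹ w)) = R g (R (g⁻¹ * h) (p (R (g⁻¹ * h)⁻¹ (R g⁻¹ w))))
      rw [← Module.End.mul_apply (R g), ← map_mul, mul_inv_cancel_left, mul_inv_rev, inv_inv,
        ← Module.End.mul_apply (R (h⁻¹ * g)), ← map_mul, mul_inv_cancel_right]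
    have h3 : ∀ w, Tg g w = R g (p (R g⁻¹ w)) := fun _ => rfl
    rw [h2 u, h3, Rinv, h1, h2 (Tg g u), h3 u, Rinv]
  obtain ⟨v, hv, hv0, hve⟩ := common_eig (Set.range Tg) _ U rfl hU.1 (by
    rintro _ ⟨g, rfl⟩
    exact hTgU g) (by
    rintro _ ⟨g, rfl⟩ _ ⟨h, rfl⟩
    exact hTT g h)
  have hfin := scalar_of_vector hU (Submodule.span K (Set.range Tg)) (fun g Y hY => by
    induction hY using Submodule.span_induction with
    | mem Y hY =>
      obtain ⟨h, rfl⟩ := hY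
      refine Submodule.subset_span ⟨g * h, ?_⟩
      change R (g * h) * p * R (g * h)⁻¹ = R g * (R h * p * R h⁻¹) * R g⁻¹
      rw [map_mul, mul_inv_rev, map_mul]
      noncomm_ring
    | zero => simp
    | add Y Z _ _ h1 h2 =>
      rw [mul_add, add_mul]
      exact Submodule.add_mem _ h1 h2
    | smul a Y _ h1 =>
      rw [mul_smul_comm, smul_mul_assoc]
      exact Submodule.smul_mem _ _ h1) hv hv0 (fun Y hY => by
    induction hY using Submodule.span_induction with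
    | mem Y hY => exact hve Y hY
    | zero => exact ⟨0, by simp⟩
    | add Y Z _ _ h1 h2 =>
      obtain ⟨a, ha⟩ := h1
      obtain ⟨b, hb⟩ := h2
      exact ⟨a + b, by rw [LinearMap.add_apply, ha, hb, add_smul]⟩
    | smul c Y _ h1 =>
      obtain ⟨a, ha⟩ := h1
      exact ⟨c * a, by rw [LinearMap.smul_apply, ha, smul_smul]⟩)
  obtain ⟨a, ha⟩ := hfin (Tg 1) (Submodule.subset_span ⟨1, rfl⟩)
  have ha' : ∀ u ∈ U, p u = a • u := by
    intro u hu
    have h1 := ha u hu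
    change R 1 (p (R 1⁻¹ u)) = a • u at h1
    rwa [inv_one, map_one, Module.End.one_apply, Module.End.one_apply] at h1
  obtain ⟨α, hα, hα0⟩ := hA
  obtain ⟨β, hβ, hβ0⟩ := hB
  obtain ⟨u, hu, hu0⟩ := Submodule.exists_mem_ne_zero_of_ne_bot hα0
  obtain ⟨w, hw, hw0⟩ := Submodule.exists_mem_ne_zero_of_ne_bot hβ0
  have h1 := ha' u (mem_eig.1 hu).1
  rw [hpA u (eig_le_part hα hu)] at h1
  have h2 := ha' w (mem_eig.1 hw).1
  rw [hpB w (eig_le_part (A := Aᶜ) hβ hw)] at h2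
  have h3 : a = 0 := (smul_eq_zero.1 h2.symm).resolve_right hw0
  rw [h3, zero_smul] at h1
  exact hu0 h1

end Pool.Agent.TH118.IS
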