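import Mathlib
import Pool.Agent.TH118.IS.Nilp
import Pool.Agent.TH118.CU.Final

/-!
# Tate classes and isolated eigenvalue ratios: type IV
-/

set_option linter.unusedSectionVars false

namespace Pool.Agent.TH118.IS

open Module Pool.Agent.H204R3.SP Pool.Agent.H204R3.GP Pool.Agent.W522.U Pool.Agent.TH118.WC
open Pool.Agent.TH118.CR Pool.Agent.TH118.CU

section defs

variable {K : Type} [Field K] {X : Type} [AddCommGroup X] [Module K X]
  {Γ : Type} [Group Γ] (R : Representation K Γ X) {I : Type} (E : I → Submodule K X)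

/-- The space is the sum of the strongly irreducible subspaces `E i`. -/
def SumOfSI : Prop := (∀ i, SI R (E i)) ∧ ⨆ i, E i = ⊤

/-- The eigenvalues of `γ` on `E i` are divided into two nonempty sets, `A` and its complement,
such that for `α` in `A` and `β` in the complement at least one of the two eigenspaces is
one-dimensional, `β / α` is not a quotient of any other pair of eigenvalues on `E i`, and there are
no geometric progressions of length three with the quotient `β / α` in the set of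
eigenvalues of `γ` on any `E j`. -/
def SplitsIsolated (γ : Γ) (i : I) : Prop :=
  ∃ A : Set K, (∃ α ∈ A, eig R γ (E i) α ≠ ⊥) ∧ (∃ β ∉ A, eig R γ (E i) β ≠ ⊥) ∧
    ∀ α ∈ A, ∀ β ∉ A, eig R γ (E i) α ≠ ⊥ → eig R γ (E i) β ≠ ⊥ →
      (finrank K (eig R γ (E i) α) = 1 ∨ finrank K (eig R γ (E i) β) = 1) ∧
      (∀ α', eig R γ (E i) α' ≠ ⊥ → eig R γ (E i) (α' * (β * α⁻¹)) ≠ ⊥ → α' = α) ∧
      ∀ j α', eig R γ (E j) α' ≠ ⊥ → eig R γ (E j) (α' * (β * α⁻¹)) ≠ ⊥ →
        eig R γ (E j) (α' * (β * α⁻¹) * (β * α⁻¹)) = ⊥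

/-- For each `i` there is an element `γ` of finite order which preserves all `E j`, whose
eigenvalues on `E i` split in an isolated way, and such that for `j` different from `i` the
eigenvalues of `γ` on `E j`, with multiplicities, are not the products of those on `E i` with
a number `a`. -/
def HasIsolatedRatios : Prop :=
  ∀ i, ∃ γ : Γ, (∃ k : ℕ, 0 < k ∧ R γ ^ k = 1) ∧ (∀ j, ∀ u ∈ E j, R γ u ∈ E j) ∧
    SplitsIsolated R E γ i ∧
    ∀ j, j ≠ i → ∀ a : K, a ≠ 0 → ∃ α : K,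
      finrank K (eig R γ (E i) α) ≠ finrank K (eig R γ (E j) (a * α))

end defs

variable {K : Type} [Field K] [CharZero K] [IsAlgClosed K] {X : Type} [AddCommGroup X]
  [Module K X] [FiniteDimensional K X] {Γ : Type} [Group Γ] {R : Representation K Γ X}
  {χ : Γ →* K} {I : Type} {E : I → Submodule K X}

/-- Every strongly irreducible subspace is potentially isomorphic to a given one. -/
theorem exists_iso' (hss : HasProj R) (hE : SumOfSI R E) {U : Submodule K X}
    (hU : SI R U) : ∃ i, Tw R (fun _ => 1) U (E i) := by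
  obtain ⟨Δ, hΔ, hst⟩ := hU.2.1
  obtain ⟨p, hp1, hp2, hp3⟩ := hss Δ hΔ U hst
  by_contra hcon
  push Not at hcon
  have h0 : ∀ i, ∀ u ∈ E i, p u = 0 := by
    intro i
    by_contra h1
    push Not at h1
    obtain ⟨u, hu, hu0⟩ := h1
    refine hcon i (Tw.symm1 (hE.1 i) hU ⟨Δ, hΔ, p, fun u _ => hp1 u, ⟨u, hu, hu0⟩, ?_⟩)
    intro g hg u _
    rw [one_smul]
    exact hp3 g hg u
  have h1 : (⊤ : Submodule K X) ≤ LinearMap.ker p := by
    rw [← hE.2, iSup_le_iff]
    exact fun i u hu => h0 i u hu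
  obtain ⟨u, hu, hu0⟩ := Submodule.exists_mem_ne_zero_of_ne_bot hU.1
  apply hu0
  rw [← hp2 u hu]
  exact h1 Submodule.mem_top

/-- Twisted isomorphic strongly irreducible subspaces have proportional eigenvalues. -/
theorem eig_of_tw {U U' : Submodule K X} (hU : SI R U) (hU' : SI R U') {γ : Γ}
    (hγU : ∀ u ∈ U, R γ u ∈ U) (hγU' : ∀ u ∈ U', R γ⁻¹ u ∈ U') {ψ : Γ → K}
    (h : Tw R ψ U U') :
    ∃ a : K, a ≠ 0 ∧ ∀ α, finrank K (eig R γ U α) = finrank K (eig R γ U' (a * α)) := by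
  obtain ⟨Δ, hΔ, T, hTU, h0, hT⟩ := h
  have hinj := tw_inj hU hΔ h0 hT
  obtain ⟨a, ha, haT⟩ := twist_unique hU hU' hΔ
    (Δ' := Δ.comap (MulAut.conj γ).toMonoidHom) ⟨by
      rw [Subgroup.index_comap_of_surjective _ (MulAut.conj γ).surjective]
      exact hΔ.index_ne_zero⟩ (T := T) (T' := (R γ⁻¹).comp (T.comp (R γ))) hTU
    (fun u hu => hγU' _ (hTU _ (hγU u hu))) h0 (by
      obtain ⟨u, hu, hu0⟩ := h0
      refine ⟨u, hu, ?_⟩
      rw [LinearMap.comp_apply, LinearMap.comp_apply]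
      refine Rne _ fun h1 => ?_
      have h2 := hinj _ (hγU u hu) h1
      have h4 : u = 0 := by
        by_contra h5
        exact Rne γ h5 h2
      rw [h4, map_zero] at hu0
      exact hu0 rfl) (ψ := ψ) (ψ' := fun g => ψ (γ * g * γ⁻¹)) hT (by
      intro g hg u hu
      have h1 : γ * g * γ⁻¹ ∈ Δ := hg
      have h2 : R γ (R g u) = R (γ * g * γ⁻¹) (R γ u) := by
        rw [← Module.End.mul_apply, ← Module.End.mul_apply, ← map_mul, ← map_mul]
        congr 2
        group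
      have h4 : ∀ w, R γ⁻¹ (R (γ * g * γ⁻¹) w) = R g (R γ⁻¹ w) := by
        intro w
        rw [← Module.End.mul_apply, ← Module.End.mul_apply, ← map_mul, ← map_mul]
        congr 2
        group
      rw [LinearMap.comp_apply, LinearMap.comp_apply, LinearMap.comp_apply, LinearMap.comp_apply,
        h2, hT _ h1 _ (hγU u hu), map_smul, h4])
  have hrel : ∀ u ∈ U, T (R γ u) = a • R γ (T u) := by
    intro u hu
    have h1 := haT u hu
    rw [LinearMap.comp_apply, LinearMap.comp_apply] at h1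
    rw [← map_smul, ← h1, Rinv']
  have hmap := tw_map hU hU' hΔ hTU h0 hT
  refine ⟨a⁻¹, inv_ne_zero ha, fun α => ?_⟩
  have h1 : (eig R γ U α).map T = eig R γ U' (a⁻¹ * α) := by
    apply le_antisymm
    · rintro _ ⟨u, hu, rfl⟩
      rw [SetLike.mem_coe, mem_eig] at hu
      rw [mem_eig]
      refine ⟨hTU u hu.1, ?_⟩
      have h2 := hrel u hu.1
      rw [hu.2, map_smul] at h2
      rw [mul_smul, h2, smul_smul, inv_mul_cancel₀ ha, one_smul]
    · intro w hw
      rw [mem_eig] at hw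
      have hw1 := hw.1
      rw [← hmap] at hw1
      obtain ⟨u, hu, rfl⟩ := hw1
      refine ⟨u, ?_, rfl⟩
      rw [SetLike.mem_coe, mem_eig]
      refine ⟨hu, ?_⟩
      have h2 := hrel u hu
      rw [hw.2, smul_smul, mul_inv_cancel_left₀ ha, ← map_smul] at h2
      have h3 := hinj (R γ u - α • u) (U.sub_mem (hγU u hu) (U.smul_mem _ hu)) (by
        rw [map_sub, h2, sub_self])
      exact sub_eq_zero.1 h3
  rw [← h1]
  have h2 : Function.Injective (T.domRestrict (eig R γ U α)) := by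
    rw [injective_iff_map_eq_zero]
    rintro ⟨u, hu⟩ hv
    exact Subtype.ext (hinj _ (mem_eig.1 hu).1 hv)
  have h3 : (eig R γ U α).map T = LinearMap.range (T.domRestrict (eig R γ U α)) := by
    rw [LinearMap.range_domRestrict]
  rw [h3, LinearMap.finrank_range_of_inj h2]

/-- Two different eigenvalues. -/
theorem two_le_finrank {γ : Γ} {U : Submodule K X} {α β : K} (hαβ : α ≠ β)
    (hα : eig R γ U α ≠ ⊥) (hβ : eig R γ U β ≠ ⊥) : 2 ≤ finrank K U := by
  obtain ⟨u, hu, hu0⟩ := Submodule.exists_mem_ne_zero_of_ne_bot hα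
  obtain ⟨w, hw, hw0⟩ := Submodule.exists_mem_ne_zero_of_ne_bot hβ
  rw [mem_eig] at hu hw
  by_contra hcon
  have h1 : finrank K U ≤ 1 := by omega
  have h2 : U = Submodule.span K {u} := by
    symm
    apply Submodule.eq_of_le_of_finrank_le
    · rw [Submodule.span_singleton_le_iff_mem]
      exact hu.1
    · rw [finrank_span_singleton hu0]
      exact h1
  have h3 := hw.1
  rw [h2, Submodule.mem_span_singleton] at h3
  obtain ⟨c, rfl⟩ := h3
  have h4 := hw.2
  rw [map_smul, hu.2, smul_smul, smul_smul] at h4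
  have h5 : (c * α - β * c) • u = 0 := by rw [sub_smul, h4, sub_self]
  have h6 := (smul_eq_zero.1 h5).resolve_right hu0
  have h7 : c * (α - β) = 0 := by linear_combination h6
  rcases mul_eq_zero.1 h7 with h8 | h8
  · rw [h8, zero_smul] at hw0
    exact hw0 rfl
  · exact hαβ (sub_eq_zero.1 h8)

/-- An element of the Lie algebra that is not a scalar. -/
theorem nonscalar_of_frob (hF : HasFrobenii R E) (i : I) :
    ∃ Y ∈ lieT R χ, ¬∃ a : K, ∀ u ∈ E i, Y u = a • u := by
  obtain ⟨F, b, hb, u, hu, v, hv, hu0, hv0, al, be, hal, hbe, hab⟩ := hF i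
  obtain ⟨Y, hY, s, t, hst', hYu, hYv⟩ := exists_nonscalar R χ F b hb hu0 hv0 hal hbe hab
  refine ⟨Y, hY, ?_⟩
  rintro ⟨a, ha⟩
  apply hst'
  have h3 : s = a := by
    have h4 : (s - a) • u = 0 := by rw [sub_smul, ← hYu, ha u hu, sub_self]
    exact sub_eq_zero.1 ((smul_eq_zero.1 h4).resolve_right hu0)
  have h5 : t = a := by
    have h4 : (t - a) • v = 0 := by rw [sub_smul, ← hYv, ha v hv, sub_self]
    exact sub_eq_zero.1 ((smul_eq_zero.1 h4).resolve_right hv0)
  rw [h3, h5]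

/-- The main theorem over an algebraically closed field. -/
theorem iso_det (ω : X →ₗ[K] X →ₗ[K] K) (hnd : ∀ u, (∀ v, ω u v = 0) → u = 0)
    (hωR : ∀ g u v, ω (R g u) (R g v) = χ g * ω u v) (hss : HasProj R)
    (hE : SumOfSI R E) (hiso : HasIsolatedRatios R E) (hF : HasFrobenii R E)
    {m : ℕ} (φ : MultilinearMap K (fun _ : Fin m × Fin 2 => X) K) (hφ : IsTate R χ m φ) :
    φ ∈ Submodule.span K (DetProd R χ m) := by
  have hst : ∀ j, ∀ Y ∈ lieT R χ, ∀ u ∈ E j, Y u ∈ E j := fun j Y hY =>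
    lieT_stable ω hnd hωR hss (hE.1 j).2.1 hY
  have hN : ∀ i, ∃ N ∈ lieT R χ, N * N = 0 ∧ finrank K ((E i).map N) = 1 := by
    intro i
    obtain ⟨γ, ⟨k, hk, hγ⟩, hγE, ⟨A, hA, hB, h1⟩, -⟩ := hiso i
    exact iso_N E hE.2 hst hk hγ hγE i (hE.1 i) (nonscalar_of_frob hF i) A hA hB h1
  have hsep : ∀ i j (ψ : Γ → K), Tw R ψ (E i) (E j) → i = j := by
    intro i j ψ h
    by_contra hij
    obtain ⟨γ, ⟨k, hk, hγ⟩, hγE, -, hs⟩ := hiso i
    obtain ⟨a, ha, h1⟩ := eig_of_tw (hE.1 i) (hE.1 j) (hγE i) (inv_stable hk hγ (hγE j)) h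
    obtain ⟨α, hα⟩ := hs j (Ne.symm hij) a ha
    exact hα (h1 α)
  have h2 : ∀ i, 2 ≤ finrank K (E i) := by
    intro i
    obtain ⟨γ, -, -, ⟨A, ⟨α, hα, hα0⟩, ⟨β, hβ, hβ0⟩, -⟩, -⟩ := hiso i
    exact two_le_finrank (α := α) (β := β) (fun h => hβ (by rw [← h]; exact hα)) hα0 hβ0
  have hdim : ∀ U, SI R U → 2 ≤ finrank K U := by
    intro U hU
    obtain ⟨i, Δ, hΔ, T, hTU, h0, hT⟩ := exists_iso' hss hE hU
    obtain ⟨e, -⟩ := tw_equiv hU (hE.1 i) hΔ hTU h0 hT
    rw [e.finrank_eq]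
    exact h2 i
  refine Pool.Agent.TH118.CR.nil_det ω hnd hωR ?_ hss ?_ ?_ φ hφ
  · intro U hU _
    obtain ⟨i, hi⟩ := exists_iso' hss hE hU
    obtain ⟨N, hN1, hN2, hN3⟩ := hN i
    refine ⟨N, hN1, hN2, ?_⟩
    rw [← rank_transfer ω hnd hωR hss hU (hE.1 i) hi hN1]
    exact hN3
  · intro U hU h1
    have h3 := hdim U hU
    omega
  · intro U U' hU hU' _ _ ψ hψ
    obtain ⟨i, hi⟩ := exists_iso' hss hE hU
    obtain ⟨j, hj⟩ := exists_iso' hss hE hU'
    have h3 := ((hi.symm1 hU (hE.1 i)).trans hU hψ).trans hU' hj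
    have hij := hsep i j _ h3
    subst hij
    exact hi.trans1 (hE.1 i) (hj.symm1 hU' (hE.1 i))

end Pool.Agent.TH118.IS
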